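import Pool.Agent.Helper44.KW.Defs
import Pool.Agent.Helper80.KD.Inst

/-!
# KD, block W6: instances with monotone increments
-/

set_option autoImplicit false

namespace Pool.Agent.Helper44.KW

open MeasureTheory Set Filter Topology Pool.Agent.Helper78.KD

theorem instI_mul {x₀ β₁ β₂ τ : ℝ} (hx₀ : 1 < x₀) (hβ : 1 < β₁) (h₁ : β₁ < x₀) (h₂ : x₀ < β₂) (hτ : 0 < τ) (D : ℕ)
    (c : ℕ → ℝ) :
    LocFamI (fun n ξ => ξ * x₀ ^ (n + 1) + c n) univ (fun d => x₀ ^ d) D τ β₁ β₂ := by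
  intro x hx O hO
  obtain ⟨n₀, v, a, b, hxab, hsub, hF, hR, -⟩ :=
    Pool.Agent.Helper80.KD.inst_mul hx₀ hβ h₁ h₂ hτ D c x hx O hO 0 1 one_pos
  have hv : ∀ n, ∀ y ∈ Icc a b, v n y = x₀ ^ (n + n₀ + 1) := by
    intro n y hy
    have h := ((hasDerivAt_id y).mul_const (x₀ ^ (n + n₀ + 1))).add_const (c (n + n₀))
    have h' : HasDerivAt (fun ξ : ℝ => ξ * x₀ ^ (n + n₀ + 1) + c (n + n₀)) (x₀ ^ (n + n₀ + 1)) y := by
      simpa using h
    exact (hF.deriv n y hy).unique h'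
  refine ⟨n₀, v, a, b, hxab, hsub, hF, hR, ?_, ?_, ?_⟩
  · intro n y hy z hz _
    simp only [hv _ y hy, hv _ z hz]
    exact le_refl _
  · intro d _ _ j y hy z hz _
    simp only [hv _ y hy, hv _ z hz]
    exact le_refl _
  · intro d _ _ j y hy z hz _
    simp only [hv _ y hy, hv _ z hz]
    exact le_refl _

/-- monotonicity of a combination of two powers -/
lemma mono_two {p q a b : ℝ} {N d : ℕ} (ha : 0 < a)
    (h : ∀ y ∈ Icc a b, 0 ≤ p * N + q * ((N + d : ℕ) : ℝ) * y ^ d) :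
    MonotoneOn (fun y : ℝ => p * y ^ N + q * y ^ (N + d)) (Icc a b) := by
  refine monotoneOn_of_deriv_nonneg (convex_Icc a b) (by fun_prop) (by fun_prop) ?_
  intro y hy
  rw [interior_Icc] at hy
  have hy' : y ∈ Icc a b := Ioo_subset_Icc_self hy
  have hy0 : 0 < y := lt_of_lt_of_le ha hy'.1
  have h1 := ((hasDerivAt_pow N y).const_mul p).add ((hasDerivAt_pow (N + d) y).const_mul q)
  have h2 : deriv (fun y : ℝ => p * y ^ N + q * y ^ (N + d)) y =
      p * (N * y ^ (N - 1)) + q * (((N + d : ℕ) : ℝ) * y ^ (N + d - 1)) := h1.deriv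
  rw [h2]
  have h3 := h y hy'
  have h4 : y * (p * (N * y ^ (N - 1)) + q * (((N + d : ℕ) : ℝ) * y ^ (N + d - 1))) =
      y ^ N * (p * N + q * ((N + d : ℕ) : ℝ) * y ^ d) := by
    have e1 : (N : ℝ) * (y * y ^ (N - 1)) = N * y ^ N := by
      rcases Nat.eq_zero_or_pos N with h0 | h0
      · subst h0; simp
      · rw [← pow_succ', Nat.sub_add_cancel h0]
    have e2 : ((N + d : ℕ) : ℝ) * (y * y ^ (N + d - 1)) = ((N + d : ℕ) : ℝ) * y ^ (N + d) := by
      rcases Nat.eq_zero_or_pos (N + d) with h0 | h0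
      · rw [h0]; simp
      · rw [← pow_succ', Nat.sub_add_cancel h0]
    have e3 : y ^ (N + d) = y ^ N * y ^ d := pow_add _ _ _
    calc y * (p * (N * y ^ (N - 1)) + q * (((N + d : ℕ) : ℝ) * y ^ (N + d - 1))) =
        p * (N * (y * y ^ (N - 1))) + q * (((N + d : ℕ) : ℝ) * (y * y ^ (N + d - 1))) := by ring
      _ = p * (N * y ^ N) + q * (((N + d : ℕ) : ℝ) * y ^ (N + d)) := by rw [e1, e2]
      _ = _ := by rw [e3]; ring
  have h5 : 0 ≤ y * (p * (N * y ^ (N - 1)) + q * (((N + d : ℕ) : ℝ) * y ^ (N + d - 1))) := by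
    rw [h4]
    exact mul_nonneg (pow_nonneg hy0.le N) h3
  exact nonneg_of_mul_nonneg_right h5 hy0

theorem instI_pow {x₀ β₁ β₂ τ : ℝ} (hx₀ : 1 < x₀) (hβ : 1 < β₁) (h₁ : β₁ < x₀) (h₂ : x₀ < β₂) (hτ : 0 < τ) (D : ℕ) :
    ∃ ρ₀ : ℝ, 0 < ρ₀ ∧ ∀ A : ℝ, 0 < A → ∀ c : ℕ → ℝ,
      LocFamI (fun n x => A * x ^ (n + 1) + c n) (Ioo (x₀ - ρ₀) (x₀ + ρ₀)) (fun d => x₀ ^ d) D τ β₁ β₂ := by
  obtain ⟨ρ₁, hρ₁, H⟩ := Pool.Agent.Helper80.KD.inst_pow hx₀ hβ h₁ h₂ hτ D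
  have hev : ∀ᶠ y in 𝓝 x₀, β₁ < y ∧ ∀ d ∈ Finset.range (D + 1), |y ^ d - x₀ ^ d| < τ / 2 := by
    refine (lt_mem_nhds h₁).and ?_
    rw [Filter.eventually_all_finset]
    intro d _
    have hc : ContinuousAt (fun y : ℝ => |y ^ d - x₀ ^ d|) x₀ := by fun_prop
    have : (fun y : ℝ => |y ^ d - x₀ ^ d|) x₀ < τ / 2 := by simp; linarith
    exact hc.eventually_lt continuousAt_const this
  obtain ⟨ρ₂, hρ₂, hball⟩ := Metric.eventually_nhds_iff.1 hev
  refine ⟨min ρ₁ ρ₂, lt_min hρ₁ hρ₂, fun A hA c => ?_⟩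
  have hG : ∀ y ∈ Ioo (x₀ - min ρ₁ ρ₂) (x₀ + min ρ₁ ρ₂), y ∈ Ioo (x₀ - ρ₁) (x₀ + ρ₁) ∧ β₁ < y ∧
      ∀ d ∈ Finset.range (D + 1), |y ^ d - x₀ ^ d| < τ / 2 := by
    intro y hy
    have h3 := min_le_left ρ₁ ρ₂
    have h4 := min_le_right ρ₁ ρ₂
    refine ⟨⟨by linarith [hy.1], by linarith [hy.2]⟩, ?_⟩
    apply hball
    rw [Real.dist_eq, abs_lt]
    constructor <;> linarith [hy.1, hy.2]
  obtain ⟨M, hM⟩ := exists_nat_ge (6 * D * (x₀ ^ D + τ) / τ + D + 1)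
  intro x hx O hO
  have hev2 : ∀ᶠ y in 𝓝 x, ∀ n ∈ Finset.range (M + 1), |A * y ^ (n + 1) - A * x ^ (n + 1)| < 1 / 2 := by
    rw [Filter.eventually_all_finset]
    intro n _
    have hc : ContinuousAt (fun y : ℝ => |A * y ^ (n + 1) - A * x ^ (n + 1)|) x := by fun_prop
    have : (fun y : ℝ => |A * y ^ (n + 1) - A * x ^ (n + 1)|) x < 1 / 2 := by simp
    exact hc.eventually_lt continuousAt_const this
  have hO' : O ∩ Ioo (x₀ - min ρ₁ ρ₂) (x₀ + min ρ₁ ρ₂) ∩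
      {y | ∀ n ∈ Finset.range (M + 1), |A * y ^ (n + 1) - A * x ^ (n + 1)| < 1 / 2} ∈ 𝓝 x :=
    Filter.inter_mem (Filter.inter_mem hO (Ioo_mem_nhds hx.1 hx.2)) hev2
  obtain ⟨n₀, v, a, b, hxab, hsub, hF, hR, -⟩ := H A hA c x (hG x hx).1 _ hO' 0 1 one_pos
  have hab := hF.hab
  have hn₀ : M < n₀ := by
    by_contra hcon
    have hmem : n₀ ∈ Finset.range (M + 1) := Finset.mem_range.2 (by omega)
    have h3 := (hsub (left_mem_Icc.2 hab.le)).2 n₀ hmem
    have h4 := (hsub (right_mem_Icc.2 hab.le)).2 n₀ hmem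
    have h5 := hF.root.1
    have e : A * b ^ (0 + n₀ + 1) + c (0 + n₀) - (A * a ^ (0 + n₀ + 1) + c (0 + n₀)) =
        (A * b ^ (n₀ + 1) - A * x ^ (n₀ + 1)) - (A * a ^ (n₀ + 1) - A * x ^ (n₀ + 1)) := by
      rw [Nat.zero_add]
      ring
    simp only [e] at h5
    rw [abs_lt] at h3 h4
    linarith [h3.1, h3.2, h4.1, h4.2]
  have hL : ∀ y ∈ Icc a b, β₁ < y ∧ ∀ d ∈ Finset.range (D + 1), |y ^ d - x₀ ^ d| < τ / 2 :=
    fun y hy => (hG y (hsub hy).1.2).2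
  have hv : ∀ n, ∀ y ∈ Icc a b, v n y = A * ((n + n₀ : ℕ) + 1 : ℝ) * y ^ (n + n₀) := by
    intro n y hy
    have h1 := ((hasDerivAt_pow (n + n₀ + 1) y).const_mul A).add_const (c (n + n₀))
    have h2 : A * (((n + n₀ + 1 : ℕ) : ℝ) * y ^ (n + n₀ + 1 - 1)) = A * ((n + n₀ : ℕ) + 1 : ℝ) * y ^ (n + n₀) := by
      rw [Nat.add_sub_cancel]
      push_cast
      ring
    rw [h2] at h1
    exact (hF.deriv n y hy).unique h1
  have ha0 : 0 < a := by linarith [(hL a (left_mem_Icc.2 hab.le)).1]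
  have hMr : 6 * D * (x₀ ^ D + τ) / τ + D + 1 ≤ (n₀ : ℝ) := hM.trans (by exact_mod_cast hn₀.le)
  have hxD : 0 < x₀ ^ D := by positivity
  refine ⟨n₀, v, a, b, hxab, fun y hy => (hsub hy).1.1, hF, hR, ?_, ?_, ?_⟩
  · intro n
    have h3 := mono_two (p := -(β₁ * (A * ((n + n₀ : ℕ) + 1 : ℝ)))) (q := A * ((n + 1 + n₀ : ℕ) + 1 : ℝ))
      (a := a) (b := b) (N := n + n₀) (d := 1) ha0 (by
        intro y hy
        have hy1 := (hL y hy).1
        push_cast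
        have hn : (0 : ℝ) ≤ n := Nat.cast_nonneg n
        have hn0 : (0 : ℝ) ≤ n₀ := Nat.cast_nonneg n₀
        have h4 : β₁ * ((n : ℝ) + n₀ + 1) * ((n : ℝ) + n₀) ≤ ((n : ℝ) + 1 + n₀ + 1) * ((n : ℝ) + n₀ + 1) * y ^ 1 := by
          rw [pow_one]
          have h5 : β₁ * ((n : ℝ) + n₀) ≤ y * ((n : ℝ) + 1 + n₀ + 1) := by nlinarith
          have h6 := mul_le_mul_of_nonneg_left h5 (by positivity : (0 : ℝ) ≤ (n : ℝ) + n₀ + 1)
          nlinarith [h6]
        have h7 := mul_le_mul_of_nonneg_left h4 hA.le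
        nlinarith [h7])
    refine h3.congr ?_
    intro y hy
    simp only [hv _ y hy]
    rw [show n + 1 + n₀ = n + n₀ + 1 by omega]
    ring
  · intro d hd1 hdD j
    have h3 := mono_two (p := -((x₀ ^ d - τ) * (A * ((j + n₀ : ℕ) + 1 : ℝ)))) (q := A * ((j + d + n₀ : ℕ) + 1 : ℝ))
      (a := a) (b := b) (N := j + n₀) (d := d) ha0 (by
        intro y hy
        have hy1 := (hL y hy).1
        have hy0 : 0 < y := by linarith
        have hyd := abs_lt.1 ((hL y hy).2 d (Finset.mem_range.2 (by omega)))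
        have hyd0 : 0 < y ^ d := by positivity
        push_cast
        have hj : (0 : ℝ) ≤ j := Nat.cast_nonneg j
        have hd : (0 : ℝ) ≤ d := Nat.cast_nonneg d
        have hn0 : (0 : ℝ) ≤ n₀ := Nat.cast_nonneg n₀
        have h4 : (x₀ ^ d - τ) * (((j : ℝ) + n₀ + 1) * ((j : ℝ) + n₀)) ≤
            y ^ d * (((j : ℝ) + d + n₀ + 1) * ((j : ℝ) + n₀ + d)) := by
          have h5 : x₀ ^ d - τ ≤ y ^ d := by linarith [hyd.1]
          have h6 : ((j : ℝ) + n₀ + 1) * ((j : ℝ) + n₀) ≤ ((j : ℝ) + d + n₀ + 1) * ((j : ℝ) + n₀ + d) := by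
            exact mul_le_mul (by linarith) (by linarith) (by positivity) (by positivity)
          calc (x₀ ^ d - τ) * (((j : ℝ) + n₀ + 1) * ((j : ℝ) + n₀)) ≤
              y ^ d * (((j : ℝ) + n₀ + 1) * ((j : ℝ) + n₀)) := by gcongr
            _ ≤ _ := by gcongr
        have h7 := mul_le_mul_of_nonneg_left h4 hA.le
        nlinarith [h7])
    refine h3.congr ?_
    intro y hy
    simp only [hv _ y hy]
    rw [show j + d + n₀ = j + n₀ + d by omega]
    ring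
  · intro d hd1 hdD j
    have h3 := mono_two (p := (x₀ ^ d + τ) * (A * ((j + n₀ : ℕ) + 1 : ℝ))) (q := -(A * ((j + d + n₀ : ℕ) + 1 : ℝ)))
      (a := a) (b := b) (N := j + n₀) (d := d) ha0 (by
        intro y hy
        have hy1 := (hL y hy).1
        have hy0 : 0 < y := by linarith
        have hyd := abs_lt.1 ((hL y hy).2 d (Finset.mem_range.2 (by omega)))
        have hyd0 : 0 < y ^ d := by positivity
        set N : ℝ := (j : ℝ) + n₀ with hN
        have hj : (0 : ℝ) ≤ j := Nat.cast_nonneg j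
        have hd : (1 : ℝ) ≤ d := by exact_mod_cast hd1
        have hdD' : (d : ℝ) ≤ D := by exact_mod_cast hdD
        have hD0 : (0 : ℝ) ≤ D := Nat.cast_nonneg D
        have hNn : (n₀ : ℝ) ≤ N := by rw [hN]; linarith
        have hq : x₀ ^ d ≤ x₀ ^ D := pow_le_pow_right₀ hx₀.le hdD
        have hMN : 6 * D * (x₀ ^ D + τ) / τ + D + 1 ≤ N := hMr.trans hNn
        have hpos : 0 ≤ 6 * D * (x₀ ^ D + τ) / τ := by positivity
        have hdN : (d : ℝ) ≤ N := by linarith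
        have h4 : 6 * D * (x₀ ^ D + τ) ≤ N * τ := by
          have h5 : 6 * D * (x₀ ^ D + τ) / τ ≤ N := by linarith
          rwa [div_le_iff₀ hτ] at h5
        have h5 : 3 * (d : ℝ) * y ^ d ≤ N * (τ / 2) := by
          have h6 : y ^ d ≤ x₀ ^ D + τ := by linarith [hyd.2]
          have h7 : 3 * (d : ℝ) * y ^ d ≤ 3 * D * (x₀ ^ D + τ) := by gcongr
          linarith
        have h6 : (N + d + 1) * (N + d) * y ^ d ≤ (N + 1) * N * (x₀ ^ d + τ) := by
          have h7 : (N + d + 1) * (N + d) ≤ (N + 1) * N + 3 * d * (N + 1) := by nlinarith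
          calc (N + d + 1) * (N + d) * y ^ d ≤ ((N + 1) * N + 3 * d * (N + 1)) * y ^ d := by gcongr
            _ = (N + 1) * N * y ^ d + (N + 1) * (3 * d * y ^ d) := by ring
            _ ≤ (N + 1) * N * (x₀ ^ d + τ / 2) + (N + 1) * (N * (τ / 2)) := by
                have h8 : y ^ d ≤ x₀ ^ d + τ / 2 := by linarith [hyd.2]
                have h9 : 0 ≤ N := by linarith
                gcongr
            _ = _ := by ring
        have h7 := mul_le_mul_of_nonneg_left h6 hA.le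
        have e1 : (x₀ ^ d + τ) * (A * (((j + n₀ : ℕ) : ℝ) + 1)) * ((j + n₀ : ℕ) : ℝ) +
            -(A * (((j + d + n₀ : ℕ) : ℝ) + 1)) * ((j + n₀ + d : ℕ) : ℝ) * y ^ d =
            A * ((N + 1) * N * (x₀ ^ d + τ)) - A * ((N + d + 1) * (N + d) * y ^ d) := by
          rw [hN]
          push_cast
          ring
        rw [e1]
        linarith)
    refine h3.congr ?_
    intro y hy
    simp only [hv _ y hy]
    rw [show j + d + n₀ = j + n₀ + d by omega]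
    ring

end Pool.Agent.Helper44.KW
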