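import Pool.Agent.Helper44.KW.Pair

/-!
# KD, block F6: the second moment of the Weyl sums of a family, any base
-/

set_option autoImplicit false

namespace Pool.Agent.Helper64.KD

open MeasureTheory Set Filter Topology Pool.Agent.Helper78.KD Pool.Agent.Helper44.KW

variable {u v : ℕ → ℝ → ℝ} {a b β₁ β₂ : ℝ}

theorem good_growW (hF : Fam u v a b β₁ β₂)
    (hI : ∀ n, MonotoneOn (fun x => v (n + 1) x - β₁ * v n x) (Icc a b)) (n j : ℕ) :
    Good a b fun x => v (n + j) x - β₁ ^ j * v n x := by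
  induction j with
  | zero =>
    refine (Good.zero (a := a) (b := b)).congr fun x => ?_
    simp
  | succ j ih =>
    have hβ : 0 ≤ β₁ := by linarith [hF.hβ]
    have h1 : Good a b fun x => v (n + j + 1) x - β₁ * v (n + j) x :=
      ⟨hI (n + j), fun x hx => by have := (hF.growth (n + j) x hx).1; simp only; linarith⟩
    refine (h1.add (ih.smul hβ)).congr fun x => ?_
    have : n + (j + 1) = n + j + 1 := by ring
    rw [this, pow_succ]; ring

theorem cos_int_le {f : ℝ → ℝ} {p q : ℝ} (hpq : p ≤ q) (hf : ContinuousOn f (Icc p q)) :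
    |∫ x in p..q, Real.cos (2 * Real.pi * f x)| ≤ ‖∫ x in p..q, ex (f x)‖ := by
  have h1 : IntervalIntegrable (fun x => ex (f x)) volume p q := by
    apply ContinuousOn.intervalIntegrable
    rw [uIcc_of_le hpq]
    exact ex_cont.comp_continuousOn hf
  have h2 : ∫ x in p..q, Real.cos (2 * Real.pi * f x) = (∫ x in p..q, ex (f x)).re := by
    have h3 : ∫ x in p..q, (ex (f x)).re = (∫ x in p..q, ex (f x)).re := by
      rw [intervalIntegral.integral_of_le hpq, intervalIntegral.integral_of_le hpq]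
      exact integral_re h1.1
    rw [← h3]
    refine intervalIntegral.integral_congr fun x _ => ?_
    rw [ex_eq, Complex.add_re, Complex.ofReal_re, Complex.re_ofReal_mul, Complex.I_re, mul_zero,
      add_zero]
  rw [h2]
  exact Complex.abs_re_le_norm _

/-- the pair `i ≤ j` -/
theorem pair_le {β : ℝ} (hβ : 1 < β) (hββ : β ≤ β₁) (hF : Fam u v a b β₁ β₂)
    (hI : ∀ n, MonotoneOn (fun x => v (n + 1) x - β₁ * v n x) (Icc a b)) (ω : ℝ)
    {n : ℕ} {p q : ℝ} (hp : a ≤ p) (hpq : p < q) (hq : q ≤ b) (h1 : 1 ≤ u n q - u n p)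
    (h2 : u n q - u n p ≤ 2) (i j : ℕ) (hij : i ≤ j) :
    |(∫ x in p..q, Real.cos (2 * Real.pi * (u (n + i) x - ω)) *
        Real.cos (2 * Real.pi * (u (n + j) x - ω))) - (if i = j then (q - p) / 2 else 0)| ≤
      (1 / (1 - β⁻¹) + 1) * (β⁻¹ ^ j * (q - p)) := by
  have hβ0 : 0 < β := by linarith
  have hr : β⁻¹ < 1 := inv_lt_one_of_one_lt₀ hβ
  have hr0 : 0 < β⁻¹ := by positivity
  have hc0 : 0 < 1 - β⁻¹ := by linarith
  have hsub : Icc p q ⊆ Icc a b := Icc_subset_Icc hp hq
  have hpI : p ∈ Icc a b := hsub ⟨le_rfl, hpq.le⟩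
  have huc : ∀ m, ContinuousOn (u m) (Icc p q) := fun m x hx =>
    (hF.deriv m x (hsub hx)).continuousAt.continuousWithinAt
  have hvp : 0 < v (n + j) p := hF.pos (n + j) p hpI
  have hinv := Pool.Agent.Helper44.KD.fam_inv hF hβ0 hββ n j hp hpq hq h1 h2
  -- the sum
  have hS : |∫ x in p..q, Real.cos (2 * Real.pi * (u (n + i) x + u (n + j) x - 2 * ω))| ≤
      1 / (1 * v (n + j) p) := by
    refine (cos_int_le (f := fun x => u (n + i) x + u (n + j) x - 2 * ω) hpq.le
      (((huc _).add (huc _)).sub continuousOn_const)).trans ?_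
    refine osc_dom (f' := fun x => v (n + i) x + v (n + j) x) (w := v (n + j)) hp hpq.le hq
      (fun x hx => ?_) ((hF.cont _).add (hF.cont _)) (hF.pos _) (hF.mono _) one_pos (Or.inl ?_)
    · have := ((hF.deriv (n + i) x hx).add (hF.deriv (n + j) x hx)).sub_const (2 * ω)
      exact this
    · refine (good_v hF (n + i)).congr fun x => ?_
      ring
  have hS' : 1 / (1 * v (n + j) p) ≤ 2 * (β⁻¹ ^ j * (q - p)) := by
    rw [one_mul]
    linarith [hinv]
  -- the difference
  have hD : |(∫ x in p..q, Real.cos (2 * Real.pi * (u (n + j) x - u (n + i) x))) -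
      (if i = j then (q - p) else 0)| ≤ 2 / (1 - β⁻¹) * (β⁻¹ ^ j * (q - p)) := by
    by_cases hij' : i = j
    · subst hij'
      rw [if_pos rfl]
      simp only [sub_self, mul_zero, Real.cos_zero, intervalIntegral.integral_const, smul_eq_mul,
        mul_one, abs_zero]
      have : 0 < q - p := by linarith
      positivity
    · rw [if_neg hij', sub_zero]
      have hlt : i < j := lt_of_le_of_ne hij hij'
      obtain ⟨d, rfl⟩ : ∃ d, j = i + (d + 1) := ⟨j - i - 1, by omega⟩
      refine (cos_int_le (f := fun x => u (n + (i + (d + 1))) x - u (n + i) x) hpq.le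
        ((huc _).sub (huc _))).trans ?_
      have h3 : ‖∫ x in p..q, ex (u (n + (i + (d + 1))) x - u (n + i) x)‖ ≤
          1 / ((1 - β⁻¹) * v (n + (i + (d + 1))) p) := by
        refine osc_dom (f' := fun x => v (n + (i + (d + 1))) x - v (n + i) x)
          (w := v (n + (i + (d + 1)))) hp hpq.le hq (fun x hx => ?_) ((hF.cont _).sub (hF.cont _))
          (hF.pos _) (hF.mono _) hc0 (Or.inl ?_)
        · exact (hF.deriv _ x hx).sub (hF.deriv _ x hx)
        · have h4 := good_growW hF hI (n + i) (d + 1)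
          have h5 : 0 ≤ β₁ ^ (d + 1) - β := by
            have h6 : β₁ ≤ β₁ ^ (d + 1) := le_self_pow₀ (by linarith) (by omega)
            linarith
          refine ((h4.add ((good_v hF (n + i)).smul h5)).smul hr0.le).congr fun x => ?_
          rw [show n + i + (d + 1) = n + (i + (d + 1)) by ring]
          field_simp
          ring
      refine h3.trans ?_
      have h4 : 1 / ((1 - β⁻¹) * v (n + (i + (d + 1))) p) =
          1 / (1 - β⁻¹) * (1 / v (n + (i + (d + 1))) p) := by
        rw [one_div_mul_one_div]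
      rw [h4]
      calc 1 / (1 - β⁻¹) * (1 / v (n + (i + (d + 1))) p) ≤
          1 / (1 - β⁻¹) * (2 * β⁻¹ ^ (i + (d + 1)) * (q - p)) := by gcongr
        _ = _ := by ring
  -- the product
  have hprod : ∫ x in p..q, Real.cos (2 * Real.pi * (u (n + i) x - ω)) *
        Real.cos (2 * Real.pi * (u (n + j) x - ω)) =
      1 / 2 * (∫ x in p..q, Real.cos (2 * Real.pi * (u (n + j) x - u (n + i) x))) +
      1 / 2 * ∫ x in p..q, Real.cos (2 * Real.pi * (u (n + i) x + u (n + j) x - 2 * ω)) := by
    rw [← intervalIntegral.integral_const_mul, ← intervalIntegral.integral_const_mul,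
      ← intervalIntegral.integral_add]
    · refine intervalIntegral.integral_congr fun x _ => ?_
      show Real.cos (2 * Real.pi * (u (n + i) x - ω)) * Real.cos (2 * Real.pi * (u (n + j) x - ω)) =
        1 / 2 * Real.cos (2 * Real.pi * (u (n + j) x - u (n + i) x)) +
        1 / 2 * Real.cos (2 * Real.pi * (u (n + i) x + u (n + j) x - 2 * ω))
      rw [show 2 * Real.pi * (u (n + j) x - u (n + i) x) = 2 * Real.pi * (u (n + j) x - ω) -
        2 * Real.pi * (u (n + i) x - ω) by ring, show 2 * Real.pi * (u (n + i) x + u (n + j) x -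
          2 * ω) = 2 * Real.pi * (u (n + j) x - ω) + 2 * Real.pi * (u (n + i) x - ω) by ring,
        Real.cos_sub, Real.cos_add]
      ring
    · apply ContinuousOn.intervalIntegrable
      rw [uIcc_of_le hpq.le]
      exact continuousOn_const.mul (Real.continuous_cos.comp_continuousOn
        (continuousOn_const.mul ((huc _).sub (huc _))))
    · apply ContinuousOn.intervalIntegrable
      rw [uIcc_of_le hpq.le]
      exact continuousOn_const.mul (Real.continuous_cos.comp_continuousOn
        (continuousOn_const.mul (((huc _).add (huc _)).sub continuousOn_const)))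
  rw [hprod]
  have e1 : (if i = j then (q - p) / 2 else 0) = 1 / 2 * (if i = j then (q - p) else 0) := by
    split_ifs <;> ring
  rw [e1]
  have e2 : ∀ x y z : ℝ, 1 / 2 * x + 1 / 2 * y - 1 / 2 * z = 1 / 2 * (x - z) + 1 / 2 * y := by
    intro x y z; ring
  rw [e2]
  refine (abs_add_le _ _).trans ?_
  rw [abs_mul, abs_mul, abs_of_pos (by norm_num : (0 : ℝ) < 1 / 2)]
  have h5 := hS.trans hS'
  have e3 : (1 / (1 - β⁻¹) + 1) * (β⁻¹ ^ j * (q - p)) =
      1 / 2 * (2 / (1 - β⁻¹) * (β⁻¹ ^ j * (q - p))) + 1 / 2 * (2 * (β⁻¹ ^ j * (q - p))) := by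
    ring
  rw [e3]
  gcongr

/-- double sums of geometric type -/
theorem double_le {r : ℝ} (hr0 : 0 ≤ r) (L : ℕ) :
    ∑ i ∈ Finset.range L, ∑ j ∈ Finset.range L, r ^ max i j ≤
      2 * ∑ i ∈ Finset.range L, ((i : ℝ) + 1) * r ^ i := by
  have h0 : ∀ i ∈ Finset.range L, ∑ j ∈ Finset.range L, (if j ≤ i then r ^ i else 0) ≤
      ((i : ℝ) + 1) * r ^ i := by
    intro i _
    rw [← Finset.sum_filter, Finset.sum_const, nsmul_eq_mul]
    refine mul_le_mul_of_nonneg_right ?_ (pow_nonneg hr0 i)
    have h1 : (Finset.range L).filter (fun j => j ≤ i) ⊆ Finset.range (i + 1) := by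
      intro j hj
      have := (Finset.mem_filter.mp hj).2
      exact Finset.mem_range.mpr (by omega)
    have h2 := Finset.card_le_card h1
    rw [Finset.card_range] at h2
    exact_mod_cast h2
  have h1 : ∀ i ∈ Finset.range L, ∀ j ∈ Finset.range L, r ^ max i j ≤
      (if j ≤ i then r ^ i else 0) + (if i ≤ j then r ^ j else 0) := by
    intro i _ j _
    rcases le_total i j with h | h
    · rw [max_eq_right h, if_pos h]
      have : (0 : ℝ) ≤ if j ≤ i then r ^ i else 0 := by split_ifs <;> positivity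
      linarith
    · rw [max_eq_left h, if_pos h]
      have : (0 : ℝ) ≤ if i ≤ j then r ^ j else 0 := by split_ifs <;> positivity
      linarith
  calc ∑ i ∈ Finset.range L, ∑ j ∈ Finset.range L, r ^ max i j ≤
      ∑ i ∈ Finset.range L, ∑ j ∈ Finset.range L,
        ((if j ≤ i then r ^ i else 0) + (if i ≤ j then r ^ j else 0)) :=
        Finset.sum_le_sum fun i hi => Finset.sum_le_sum fun j hj => h1 i hi j hj
    _ = (∑ i ∈ Finset.range L, ∑ j ∈ Finset.range L, (if j ≤ i then r ^ i else 0)) +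
        ∑ j ∈ Finset.range L, ∑ i ∈ Finset.range L, (if i ≤ j then r ^ j else 0) := by
        simp only [Finset.sum_add_distrib]
        congr 1
        exact Finset.sum_comm
    _ ≤ (∑ i ∈ Finset.range L, ((i : ℝ) + 1) * r ^ i) +
        ∑ i ∈ Finset.range L, ((i : ℝ) + 1) * r ^ i :=
        add_le_add (Finset.sum_le_sum h0) (Finset.sum_le_sum h0)
    _ = _ := by ring

theorem weyl_block {β ε : ℝ} (hβ : 1 < β) (hε : 0 < ε) : ∃ L₀ : ℕ, ∀ (u v : ℕ → ℝ → ℝ) (a b β₁ β₂ : ℝ), β ≤ β₁ → Fam u v a b β₁ β₂ →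
    (∀ n, MonotoneOn (fun x => v (n + 1) x - β₁ * v n x) (Icc a b)) → ∀ L : ℕ, L₀ ≤ L → ∀ ω : ℝ,
    BlockVar (fun t => Real.cos (2 * Real.pi * (t - ω))) u a b (1 / 2) ε L := by
  have hβ0 : 0 < β := by linarith
  have hr : β⁻¹ < 1 := inv_lt_one_of_one_lt₀ hβ
  have hr0 : 0 < β⁻¹ := by positivity
  have hc0 : 0 < 1 - β⁻¹ := by linarith
  have hsum : Summable (fun i : ℕ => ((i : ℝ) + 1) * β⁻¹ ^ i) := by
    have h1 : Summable (fun i : ℕ => (i : ℝ) ^ 1 * β⁻¹ ^ i) :=
      summable_pow_mul_geometric_of_norm_lt_one 1 (by rw [Real.norm_eq_abs, abs_of_pos hr0]; exact hr)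
    have h2 : Summable (fun i : ℕ => β⁻¹ ^ i) := summable_geometric_of_lt_one hr0.le hr
    refine (h1.add h2).congr fun i => ?_
    ring
  set K : ℝ := 1 / (1 - β⁻¹) + 1 with hK
  have hK0 : 0 < K := by positivity
  set M : ℝ := ∑' i : ℕ, ((i : ℝ) + 1) * β⁻¹ ^ i with hM
  have hM0 : 0 ≤ M := tsum_nonneg fun i => by positivity
  obtain ⟨L₀, hL₀⟩ := exists_nat_ge (2 * K * M / ε)
  refine ⟨L₀, ?_⟩
  intro u v a b β₁ β₂ hββ hF hI L hL ω n p q hp hpq hq h1 h2
  have hqp : 0 < q - p := by linarith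
  have hsub : Icc p q ⊆ Icc a b := Icc_subset_Icc hp hq
  have huc : ∀ m, ContinuousOn (u m) (Icc p q) := fun m x hx =>
    (hF.deriv m x (hsub hx)).continuousAt.continuousWithinAt
  set c : ℕ → ℝ → ℝ := fun i x => Real.cos (2 * Real.pi * (u (n + i) x - ω)) with hc
  have hcc : ∀ i, ContinuousOn (c i) (Icc p q) := fun i =>
    Real.continuous_cos.comp_continuousOn (continuousOn_const.mul ((huc _).sub continuousOn_const))
  have hint : ∀ i j, IntervalIntegrable (fun x => c i x * c j x) volume p q := by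
    intro i j
    apply ContinuousOn.intervalIntegrable
    rw [uIcc_of_le hpq.le]
    exact (hcc i).mul (hcc j)
  have hpair : ∀ i j, |(∫ x in p..q, c i x * c j x) - (if i = j then (q - p) / 2 else 0)| ≤
      K * (β⁻¹ ^ max i j * (q - p)) := by
    intro i j
    rcases le_total i j with h | h
    · rw [max_eq_right h]
      exact pair_le hβ hββ hF hI ω hp hpq hq h1 h2 i j h
    · rw [max_eq_left h]
      have h3 := pair_le hβ hββ hF hI ω hp hpq hq h1 h2 j i h
      have e1 : ∫ x in p..q, c i x * c j x = ∫ x in p..q, c j x * c i x :=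
        intervalIntegral.integral_congr fun x _ => mul_comm _ _
      have e2 : (if i = j then (q - p) / 2 else 0) = (if j = i then (q - p) / 2 else 0) := by
        by_cases h4 : i = j
        · rw [if_pos h4, if_pos h4.symm]
        · rw [if_neg h4, if_neg (fun h5 => h4 h5.symm)]
      rw [e1, e2]
      exact h3
  have hexp : ∫ x in p..q, (∑ j ∈ Finset.Ico n (n + L), Real.cos (2 * Real.pi * (u j x - ω))) ^ 2 =
      ∑ i ∈ Finset.range L, ∑ j ∈ Finset.range L, ∫ x in p..q, c i x * c j x := by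
    have e1 : ∀ x, (∑ j ∈ Finset.Ico n (n + L), Real.cos (2 * Real.pi * (u j x - ω))) ^ 2 =
        ∑ i ∈ Finset.range L, ∑ j ∈ Finset.range L, c i x * c j x := by
      intro x
      rw [Finset.sum_Ico_eq_sum_range, Nat.add_sub_cancel_left, sq, Finset.sum_mul_sum]
    simp only [e1]
    rw [intervalIntegral.integral_finsetSum]
    · refine Finset.sum_congr rfl fun i _ => ?_
      rw [intervalIntegral.integral_finsetSum]
      exact fun j _ => hint i j
    · intro i _
      apply ContinuousOn.intervalIntegrable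
      rw [uIcc_of_le hpq.le]
      exact continuousOn_finsetSum _ fun j _ => (hcc i).mul (hcc j)
  have hdiag : ∑ i ∈ Finset.range L, ∑ j ∈ Finset.range L, (if i = j then (q - p) / 2 else 0) =
      1 / 2 * L * (q - p) := by
    have e1 : ∀ i ∈ Finset.range L, ∑ j ∈ Finset.range L, (if i = j then (q - p) / 2 else 0) =
        (q - p) / 2 := by
      intro i hi
      rw [Finset.sum_ite_eq, if_pos hi]
    rw [Finset.sum_congr rfl e1, Finset.sum_const, Finset.card_range, nsmul_eq_mul]
    ring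
  show |(∫ x in p..q, (∑ j ∈ Finset.Ico n (n + L), Real.cos (2 * Real.pi * (u j x - ω))) ^ 2) -
    1 / 2 * L * (q - p)| ≤ ε * L * (q - p)
  rw [hexp, ← hdiag, ← Finset.sum_sub_distrib]
  have h3 : |∑ i ∈ Finset.range L, (∑ j ∈ Finset.range L, (∫ x in p..q, c i x * c j x) -
      ∑ j ∈ Finset.range L, (if i = j then (q - p) / 2 else 0))| ≤
      ∑ i ∈ Finset.range L, ∑ j ∈ Finset.range L, K * (β⁻¹ ^ max i j * (q - p)) := by
    refine (Finset.abs_sum_le_sum_abs _ _).trans (Finset.sum_le_sum fun i _ => ?_)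
    rw [← Finset.sum_sub_distrib]
    exact (Finset.abs_sum_le_sum_abs _ _).trans (Finset.sum_le_sum fun j _ => hpair i j)
  refine h3.trans ?_
  have h4 : ∑ i ∈ Finset.range L, ∑ j ∈ Finset.range L, K * (β⁻¹ ^ max i j * (q - p)) =
      K * (q - p) * ∑ i ∈ Finset.range L, ∑ j ∈ Finset.range L, β⁻¹ ^ max i j := by
    rw [Finset.mul_sum]
    refine Finset.sum_congr rfl fun i _ => ?_
    rw [Finset.mul_sum]
    refine Finset.sum_congr rfl fun j _ => ?_
    ring
  rw [h4]
  have h5 := double_le hr0.le L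
  have h6 : ∑ i ∈ Finset.range L, ((i : ℝ) + 1) * β⁻¹ ^ i ≤ M :=
    hsum.sum_le_tsum _ fun i _ => by positivity
  have h7 : 2 * K * M ≤ ε * L := by
    have h8 : 2 * K * M / ε ≤ L := hL₀.trans (by exact_mod_cast hL)
    rw [div_le_iff₀ hε] at h8
    linarith
  calc K * (q - p) * ∑ i ∈ Finset.range L, ∑ j ∈ Finset.range L, β⁻¹ ^ max i j ≤
      K * (q - p) * (2 * M) := by
        have h9 : ∑ i ∈ Finset.range L, ∑ j ∈ Finset.range L, β⁻¹ ^ max i j ≤ 2 * M := by linarith
        gcongr
    _ = 2 * K * M * (q - p) := by ring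
    _ ≤ ε * L * (q - p) := by gcongr

end Pool.Agent.Helper64.KD
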